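import Pool.Agent.H79.BR.Targets

/-! CCA: functions concentrated near the poles of the sphere. -/

set_option autoImplicit false

namespace Pool.Agent.H66.BR

open MeasureTheory Set
open Pool.Agent.H83.LS Pool.Agent.H93.AR Pool.Agent.H54.LS Pool.Agent.H79.BR
open scoped ENNReal NNReal

theorem norm_pole {n : ℕ} : ‖jo (0 : EE n) 1‖ = 1 := by
  have h := jo_norm_sq (0 : EE n) 1
  rw [norm_zero] at h
  have h2 : ‖jo (0 : EE n) 1‖ ^ 2 = 1 ^ 2 := by rw [h]; norm_num
  exact (pow_left_inj₀ (norm_nonneg _) zero_le_one two_ne_zero).1 h2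

theorem pole_dist {n : ℕ} (w : EE (n + 1)) (hw : ‖w‖ = 1) :
    ‖jo (0 : EE n) 1 - w‖ ≤ 2 * hor w ∨ ‖-(jo (0 : EE n) 1) - w‖ ≤ 2 * hor w := by
  have h0 := norm_sq_eq w
  rw [hw] at h0
  have hh : 0 ≤ hor w := Pool.Agent.H54.LS.hor_nonneg w
  have hi : inner ℝ (jo (0 : EE n) 1) w = w (Fin.last n) := by
    rw [inner_eq, pr_jo, jo_last, inner_zero_left]
    ring
  have h1 : ‖jo (0 : EE n) 1 - w‖ ^ 2 = 2 - 2 * w (Fin.last n) := by
    rw [@norm_sub_sq_real, norm_pole, hw, hi]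
    ring
  have h2 : ‖-(jo (0 : EE n) 1) - w‖ ^ 2 = 2 + 2 * w (Fin.last n) := by
    rw [@norm_sub_sq_real, norm_neg, norm_pole, hw, inner_neg_left, hi]
    ring
  rcases le_total 0 (w (Fin.last n)) with hz | hz
  · left
    rw [← pow_le_pow_iff_left₀ (norm_nonneg _) (by positivity) two_ne_zero, h1]
    nlinarith
  · right
    rw [← pow_le_pow_iff_left₀ (norm_nonneg _) (by positivity) two_ne_zero, h2]
    nlinarith

/-- the decay function -/
noncomputable def pk (n : ℕ) (ρ : ℝ) (u w : EE (n + 1)) : ℝ≥0∞ :=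
  ENNReal.ofReal (((1 + ρ * ‖u - w‖) ^ (n + 1 + 1))⁻¹)

theorem pk_meas (n : ℕ) (ρ : ℝ) (u : EE (n + 1)) :
    Measurable fun w : Sp (n + 1) => pk n ρ u w := by
  have hs : Measurable (Subtype.val : Sp (n + 1) → EE (n + 1)) := measurable_subtype_coe
  have h2 : Measurable fun w : EE (n + 1) => pk n ρ u w := by
    unfold pk
    fun_prop
  exact h2.comp hs

theorem pole_bd {n : ℕ} (α : ℝ) (hα : 0 < α) (w : EE (n + 1)) (hw : ‖w‖ = 1) :
    ENNReal.ofReal (((1 + hor w / α) ^ (n + 2))⁻¹) ≤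
      ENNReal.ofReal (2 ^ (n + 2)) *
        (pk n (1 / α) (jo (0 : EE n) 1) w + pk n (1 / α) (-(jo (0 : EE n) 1)) w) := by
  have hh : 0 ≤ hor w := Pool.Agent.H54.LS.hor_nonneg w
  have key : ∀ u : EE (n + 1), ‖u - w‖ ≤ 2 * hor w →
      ENNReal.ofReal (((1 + hor w / α) ^ (n + 2))⁻¹) ≤
        ENNReal.ofReal (2 ^ (n + 2)) * pk n (1 / α) u w := by
    intro u hd
    unfold pk
    obtain ⟨d, hd'⟩ : ∃ d : ℝ, d = ‖u - w‖ := ⟨_, rfl⟩
    have hd0 : 0 ≤ d := by rw [hd']; exact norm_nonneg _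
    rw [← hd'] at hd ⊢
    rw [← ENNReal.ofReal_mul (by positivity)]
    apply ENNReal.ofReal_le_ofReal
    have h1 : 1 / α * d ≤ 1 / α * (2 * hor w) := mul_le_mul_of_nonneg_left hd (by positivity)
    have h2 : 1 + 1 / α * d ≤ 2 * (1 + hor w / α) := by
      have : 1 / α * (2 * hor w) = 2 * (hor w / α) := by ring
      linarith
    have h3 : (1 + 1 / α * d) ^ (n + 2) ≤ 2 ^ (n + 2) * (1 + hor w / α) ^ (n + 2) := by
      rw [← mul_pow]
      exact pow_le_pow_left₀ (by positivity) h2 _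
    have hA : 0 < (1 + hor w / α) ^ (n + 2) := by positivity
    have hB : 0 < (1 + 1 / α * d) ^ (n + 2) := by positivity
    rw [show n + 1 + 1 = n + 2 from rfl, ← div_eq_mul_inv, le_div_iff₀ hB, inv_mul_le_iff₀ hA]
    linarith
  rw [mul_add]
  rcases pole_dist w hw with h | h
  · exact (key _ h).trans (self_le_add_right _ _)
  · exact (key _ h).trans (self_le_add_left _ _)

theorem pf_cca (hSBL : T_SBL) : T_CCA := by
  intro n hn
  obtain ⟨C, hC0, hC⟩ := hSBL (n + 1) (by omega)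
  obtain ⟨m, hm⟩ : ∃ m : ℝ, m = (sg (n + 1) univ).toReal := ⟨_, rfl⟩
  have hm0 : 0 ≤ m := by rw [hm]; exact ENNReal.toReal_nonneg
  refine ⟨2 ^ (n + 3) * C + m, by positivity, fun α hα hα4 => ?_⟩
  rcases le_total α 1 with h1 | h1
  · have hρ : 1 ≤ 1 / α := by rw [le_div_iff₀ hα]; linarith
    have h3 : ((1 / α) ^ (n + 1 - 1))⁻¹ = α ^ n := by
      rw [Nat.add_sub_cancel, one_div, inv_pow, inv_inv]
    have hA : ∫⁻ w : Sp (n + 1), pk n (1 / α) (jo (0 : EE n) 1) w ∂(sg (n + 1)) ≤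
        ENNReal.ofReal (C * α ^ n) := by
      rw [← h3]
      exact (hC (1 / α) (jo (0 : EE n) 1) hρ norm_pole).1
    have hB : ∫⁻ w : Sp (n + 1), pk n (1 / α) (-(jo (0 : EE n) 1)) w ∂(sg (n + 1)) ≤
        ENNReal.ofReal (C * α ^ n) := by
      rw [← h3]
      exact (hC (1 / α) (-(jo (0 : EE n) 1)) hρ (by rw [norm_neg, norm_pole])).1
    have hb : ∀ w : Sp (n + 1), ENNReal.ofReal (((1 + hor (w : EE (n + 1)) / α) ^ (n + 2))⁻¹) ≤
        ENNReal.ofReal (2 ^ (n + 2)) * (pk n (1 / α) (jo (0 : EE n) 1) w +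
          pk n (1 / α) (-(jo (0 : EE n) 1)) w) := by
      intro w
      apply pole_bd α hα
      have := w.2
      rwa [mem_sphere_zero_iff_norm] at this
    refine (lintegral_mono hb).trans ?_
    rw [lintegral_const_mul' _ _ ENNReal.ofReal_ne_top, lintegral_add_left (pk_meas n _ _)]
    refine (mul_le_mul_right (add_le_add hA hB) _).trans ?_
    rw [← ENNReal.ofReal_add (by positivity) (by positivity),
      ← ENNReal.ofReal_mul (by positivity)]
    apply ENNReal.ofReal_le_ofReal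
    have h4 : 0 ≤ m * α ^ n := by positivity
    have h5 : (2 : ℝ) ^ (n + 2) * (C * α ^ n + C * α ^ n) = 2 ^ (n + 3) * C * α ^ n := by
      ring
    rw [h5]
    linarith
  · have hb : ∀ w : Sp (n + 1),
        ENNReal.ofReal (((1 + hor (w : EE (n + 1)) / α) ^ (n + 2))⁻¹) ≤ 1 := by
      intro w
      rw [ENNReal.ofReal_le_one]
      have hh : 0 ≤ hor (w : EE (n + 1)) := Pool.Agent.H54.LS.hor_nonneg _
      apply inv_le_one_of_one_le₀
      apply one_le_pow₀
      have : 0 ≤ hor (w : EE (n + 1)) / α := by positivity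
      linarith
    refine (lintegral_mono hb).trans ?_
    have hu : ∫⁻ _w : Sp (n + 1), 1 ∂(sg (n + 1)) = ENNReal.ofReal m := by
      rw [lintegral_one, hm, ENNReal.ofReal_toReal (measure_ne_top _ _)]
    refine hu.le.trans ?_
    apply ENNReal.ofReal_le_ofReal
    have h2 : 1 ≤ α ^ n := one_le_pow₀ h1
    have h3 : 0 ≤ 2 ^ (n + 3) * C * α ^ n := by positivity
    nlinarith

end Pool.Agent.H66.BR
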