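import Pool.Agent.H79.BR.Targets

/-! CV2: shells in a cylinder, part away from the axis. -/

set_option autoImplicit false

namespace Pool.Agent.H66.BR

open MeasureTheory Set
open Pool.Agent.H83.LS Pool.Agent.H93.AR Pool.Agent.H54.LS Pool.Agent.H79.BR
open scoped ENNReal NNReal

theorem cv2_nu_lint (n : ℕ) (G : ℝ → ℝ≥0∞) (hG : Measurable G) :
    ∫⁻ ρ : Ioi (0 : ℝ), G ρ ∂(nu n) =
      ∫⁻ t in Ioi (0 : ℝ), ENNReal.ofReal (t ^ (n - 1)) * G t := by
  have h1 : Measurable fun ρ : Ioi (0 : ℝ) => ENNReal.ofReal ((ρ : ℝ) ^ (n - 1)) :=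
    (ENNReal.measurable_ofReal.comp ((measurable_id.pow_const _).comp measurable_subtype_coe))
  have h2 : Measurable fun ρ : Ioi (0 : ℝ) => G ρ := hG.comp measurable_subtype_coe
  show ∫⁻ ρ : Ioi (0 : ℝ), G ρ ∂((Measure.comap Subtype.val volume).withDensity
    fun r : Ioi (0 : ℝ) => ENNReal.ofReal ((r : ℝ) ^ (n - 1))) = _
  rw [lintegral_withDensity_eq_lintegral_mul _ h1 h2]
  exact lintegral_subtype_comap measurableSet_Ioi
    (fun t : ℝ => ENNReal.ofReal (t ^ (n - 1)) * G t)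

/-- the direction of a ball away from the origin -/
theorem cap_dir {n : ℕ} (hn : 1 ≤ n) (δ : ℝ) (hδ : δ ≤ 1 / 64) (x : EE n) :
    ∃ e : EE n, ‖e‖ = 1 ∧ ∀ (w : EE n) (r : ℝ), ‖w‖ = 1 → 1 / 8 ≤ r → ‖x - r • w‖ ≤ δ →
      ‖e - w‖ ≤ 1 / (r / (2 * δ)) := by
  by_cases hx : x = 0
  · refine ⟨EuclideanSpace.single ⟨0, hn⟩ 1, by simp, fun w r hw hr h => ?_⟩
    rw [hx, zero_sub, norm_neg, norm_smul, hw, mul_one, Real.norm_eq_abs] at h
    have := le_abs_self r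
    linarith
  · have hx0 : 0 < ‖x‖ := norm_pos_iff.2 hx
    refine ⟨‖x‖⁻¹ • x, ?_, fun w r hw hr h => ?_⟩
    · rw [norm_smul, norm_inv, norm_norm, inv_mul_cancel₀ hx0.ne']
    · have hr0 : 0 < r := by linarith
      have h1 : |‖x‖ - r| ≤ δ := by
        have h2 := abs_norm_sub_norm_le x (r • w)
        rw [norm_smul, hw, mul_one, Real.norm_of_nonneg hr0.le] at h2
        exact h2.trans h
      have h3 : ‖r • (‖x‖⁻¹ • x) - x‖ ≤ δ := by
        have h4 : r • (‖x‖⁻¹ • x) - x = (r * ‖x‖⁻¹ - 1) • x := by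
          rw [sub_smul, one_smul, smul_smul]
        have h5 : ‖(r * ‖x‖⁻¹ - 1) • x‖ = |‖x‖ - r| := by
          rw [norm_smul, Real.norm_eq_abs]
          have h6 : |r * ‖x‖⁻¹ - 1| * ‖x‖ = |(r * ‖x‖⁻¹ - 1) * ‖x‖| := by
            rw [abs_mul, abs_of_pos hx0]
          rw [h6]
          have h7 : (r * ‖x‖⁻¹ - 1) * ‖x‖ = r - ‖x‖ := by
            field_simp
          rw [h7, abs_sub_comm]
        rw [h4, h5]
        exact h1
      have h8 : r * ‖‖x‖⁻¹ • x - w‖ ≤ 2 * δ := by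
        have h9 : r * ‖‖x‖⁻¹ • x - w‖ = ‖(r • (‖x‖⁻¹ • x) - x) + (x - r • w)‖ := by
          have h10 : (r • (‖x‖⁻¹ • x) - x) + (x - r • w) = r • (‖x‖⁻¹ • x - w) := by
            rw [smul_sub]
            abel
          rw [h10, norm_smul, Real.norm_of_nonneg hr0.le]
        rw [h9]
        refine (norm_add_le _ _).trans ?_
        linarith
      rw [one_div_div, le_div_iff₀ hr0]
      linarith

/-- the integrand -/
noncomputable def gk (lam t z r : ℝ) (k : ℕ) : ℝ≥0∞ :=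
  ENNReal.ofReal (((1 + lam * |Real.sqrt (z ^ 2 + r ^ 2) - t|) ^ k)⁻¹)

theorem gk_meas (lam t z : ℝ) (k : ℕ) : Measurable fun r => gk lam t z r k := by
  unfold gk
  fun_prop

theorem gk_bd (lam t z r : ℝ) (hl : 1 ≤ lam) (ht : t ≤ 2) :
    gk lam t z r 4 ≤ ENNReal.ofReal (9 * ((1 + |z|) ^ 2)⁻¹) * gk lam t z r 2 := by
  unfold gk
  rw [← ENNReal.ofReal_mul (by positivity)]
  apply ENNReal.ofReal_le_ofReal
  obtain ⟨ρ, hρ⟩ : ∃ ρ, ρ = Real.sqrt (z ^ 2 + r ^ 2) := ⟨_, rfl⟩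
  rw [← hρ]
  have h1 : |z| ≤ ρ := by
    rw [hρ]
    apply Real.le_sqrt_of_sq_le
    rw [sq_abs]
    nlinarith [sq_nonneg r]
  have h2 : |ρ - t| ≤ lam * |ρ - t| := le_mul_of_one_le_left (abs_nonneg _) hl
  have h3 : (1 + |z|) / 3 ≤ 1 + lam * |ρ - t| := by
    rcases le_total t ρ with h | h
    · rw [abs_of_nonneg (sub_nonneg.2 h)] at h2 ⊢
      linarith
    · have h4 : 0 ≤ |ρ - t| := abs_nonneg _
      linarith
  have hA : 0 < 1 + lam * |ρ - t| := by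
    have : 0 ≤ lam * |ρ - t| := mul_nonneg (by linarith) (abs_nonneg _)
    linarith
  have h5 : ((1 + lam * |ρ - t|) ^ 2)⁻¹ ≤ 9 * ((1 + |z|) ^ 2)⁻¹ := by
    have h6 : 9 * ((1 + |z|) ^ 2)⁻¹ = (((1 + |z|) / 3) ^ 2)⁻¹ := by
      rw [div_pow, inv_div]
      ring
    rw [h6]
    apply inv_anti₀ (by positivity)
    exact pow_le_pow_left₀ (by positivity) h3 2
  calc ((1 + lam * |ρ - t|) ^ 4)⁻¹ = ((1 + lam * |ρ - t|) ^ 2)⁻¹ *
        ((1 + lam * |ρ - t|) ^ 2)⁻¹ := by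
        rw [← mul_inv, ← pow_add]
    _ ≤ _ := mul_le_mul_of_nonneg_right h5 (by positivity)

/-- the integral of `(1+|z|)^(-2)` -/
theorem int_z : ∃ I : ℝ, 0 ≤ I ∧
    ∫⁻ z : ℝ, ENNReal.ofReal (9 * ((1 + |z|) ^ 2)⁻¹) = ENNReal.ofReal I := by
  have hi : Integrable fun s : ℝ => ((1 + |s|) ^ 2)⁻¹ := by
    have h := integrable_one_add_norm (E := ℝ) (μ := volume) (r := 2) (by simp)
    refine h.congr (Filter.Eventually.of_forall fun s => ?_)
    simp only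
    rw [Real.rpow_neg (by positivity), Real.norm_eq_abs]
    norm_num
  refine ⟨∫ s : ℝ, 9 * ((1 + |s|) ^ 2)⁻¹, integral_nonneg fun s => by positivity, ?_⟩
  rw [ofReal_integral_eq_lintegral_ofReal (hi.const_mul 9)
    (Filter.Eventually.of_forall fun s => by positivity)]

/-- the radial set -/
def RS (z : ℝ) : Set ℝ := {r : ℝ | Real.sqrt (z ^ 2 + r ^ 2) ≤ 4 * r ∧ 1 / 8 ≤ r}

theorem RS_meas (z : ℝ) : MeasurableSet (RS z) := by
  have h1 : Measurable fun r : ℝ => Real.sqrt (z ^ 2 + r ^ 2) := by fun_prop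
  have h2 : Measurable fun r : ℝ => 4 * r := by fun_prop
  exact (measurableSet_le h1 h2).inter (measurableSet_le measurable_const measurable_id)

/-- the function of `y` at height `z` -/
noncomputable def Fz {n : ℕ} (lam t δ : ℝ) (x : EE (n + 1)) (w : EE (n + 1)) : ℝ≥0∞ :=
  {w : EE (n + 1) | hor (x - w) ≤ δ ∧ ‖w‖ / 2 ≤ hor w ∧ 1 / 4 ≤ ‖w‖}.indicator
    (fun w => ENNReal.ofReal (((1 + lam * |‖w‖ - t|) ^ 4)⁻¹)) w

theorem cv2_S_meas {n : ℕ} (δ : ℝ) (x : EE (n + 1)) :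
    MeasurableSet {w : EE (n + 1) | hor (x - w) ≤ δ ∧ ‖w‖ / 2 ≤ hor w ∧ 1 / 4 ≤ ‖w‖} := by
  have h1 : Measurable (fun w : EE (n + 1) => hor (x - w)) :=
    continuous_hor.measurable.comp (measurable_const.sub measurable_id)
  refine (measurableSet_le h1 measurable_const).inter
    ((measurableSet_le (by fun_prop) continuous_hor.measurable).inter
      (measurableSet_le measurable_const measurable_norm))

theorem Fz_meas {n : ℕ} (lam t δ : ℝ) (x : EE (n + 1)) : Measurable (Fz lam t δ x) := by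
  have h : Measurable fun w : EE (n + 1) =>
      ENNReal.ofReal (((1 + lam * |‖w‖ - t|) ^ 4)⁻¹) := by fun_prop
  exact h.indicator (cv2_S_meas δ x)

theorem cv2_pr_sub {n : ℕ} (x w : EE (n + 1)) : pr (x - w) = pr x - pr w := by
  ext i
  rfl

/-- the pointwise bound in polar coordinates -/
theorem Fz_bd {n : ℕ} (lam t δ : ℝ) (x : EE (n + 1)) (z : ℝ) (e : EE n)
    (he : ∀ (w : EE n) (r : ℝ), ‖w‖ = 1 → 1 / 8 ≤ r → ‖pr x - r • w‖ ≤ δ →
      ‖e - w‖ ≤ 1 / (r / (2 * δ))) (r : ℝ) (hr : 0 < r) (w : EE n) (hw : ‖w‖ = 1) :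
    Fz lam t δ x (jo (r • w) z) ≤
      {w : EE n | ‖e - w‖ ≤ 1 / (r / (2 * δ))}.indicator
        (fun _ => (RS z).indicator (fun r => gk lam t z r 4) r) w := by
  have hnw : ‖r • w‖ = r := by rw [norm_smul, hw, mul_one, Real.norm_of_nonneg hr.le]
  have hnorm : ‖jo (r • w) z‖ = Real.sqrt (z ^ 2 + r ^ 2) := by
    rw [← Real.sqrt_sq (norm_nonneg (jo (r • w) z)), jo_norm_sq, hnw, add_comm]
  by_cases hS : jo (r • w) z ∈
      {w : EE (n + 1) | hor (x - w) ≤ δ ∧ ‖w‖ / 2 ≤ hor w ∧ 1 / 4 ≤ ‖w‖}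
  · have h1 := hS.1
    have h2 := hS.2.1
    have h3 := hS.2.2
    rw [Pool.Agent.H54.LS.hor_eq, cv2_pr_sub, pr_jo] at h1
    rw [hor_jo, hnw, hnorm] at h2
    rw [hnorm] at h3
    have h4 : 1 / 8 ≤ r := by linarith
    have h5 : r ∈ RS z := ⟨by linarith, h4⟩
    have h6 : w ∈ {w : EE n | ‖e - w‖ ≤ 1 / (r / (2 * δ))} := he w r hw h4 h1
    rw [indicator_of_mem h6, indicator_of_mem h5]
    unfold Fz gk
    rw [indicator_of_mem hS, hnorm]
  · unfold Fz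
    rw [indicator_of_notMem hS]
    exact bot_le

/-- the integral over the sphere -/
theorem Fz_sph {n : ℕ} (C : ℝ) (lam t δ : ℝ) (x : EE (n + 1)) (z : ℝ) (e : EE n)
    (he : ∀ (w : EE n) (r : ℝ), ‖w‖ = 1 → 1 / 8 ≤ r → ‖pr x - r • w‖ ≤ δ →
      ‖e - w‖ ≤ 1 / (r / (2 * δ))) (hδ0 : 0 < δ) (hδ : δ ≤ 1 / 64)
    (hC : ∀ ρ : ℝ, 1 ≤ ρ → sg n {w : Sp n | ‖e - w‖ ≤ 1 / ρ} ≤
      ENNReal.ofReal (C * (ρ ^ (n - 1))⁻¹)) (r : ℝ) (hr : 0 < r) :
    ∫⁻ w : Sp n, Fz lam t δ x (jo (r • (w : EE n)) z) ∂(sg n) ≤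
      (RS z).indicator (fun r => gk lam t z r 4) r *
        ENNReal.ofReal (C * ((r / (2 * δ)) ^ (n - 1))⁻¹) := by
  have hb : ∀ w : Sp n, Fz lam t δ x (jo (r • (w : EE n)) z) ≤
      {w : Sp n | ‖e - w‖ ≤ 1 / (r / (2 * δ))}.indicator
        (fun _ => (RS z).indicator (fun r => gk lam t z r 4) r) w := by
    intro w
    have hw : ‖(w : EE n)‖ = 1 := by
      have := w.2
      rwa [mem_sphere_zero_iff_norm] at this
    exact Fz_bd lam t δ x z e he r hr w hw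
  refine (lintegral_mono hb).trans ?_
  have hs : Measurable (Subtype.val : Sp n → EE n) := measurable_subtype_coe
  have hm : MeasurableSet {w : Sp n | ‖e - w‖ ≤ 1 / (r / (2 * δ))} := by
    have h2 : Measurable fun w : EE n => ‖e - w‖ := by fun_prop
    exact measurableSet_le (h2.comp hs) measurable_const
  rw [lintegral_indicator_const hm]
  by_cases h5 : r ∈ RS z
  · have h6 : 1 ≤ r / (2 * δ) := by
      have := h5.2
      rw [le_div_iff₀ (by positivity)]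
      linarith
    gcongr
    exact hC _ h6
  · rw [indicator_of_notMem h5, zero_mul, zero_mul]

/-- the integral at height `z` -/
theorem Fz_int {n : ℕ} (hn : 1 ≤ n) (C C' : ℝ) (hC0 : 0 ≤ C) (lam t δ : ℝ) (x : EE (n + 1))
    (z : ℝ) (e : EE n) (hl : 1 ≤ lam) (ht : t ≤ 2)
    (he : ∀ (w : EE n) (r : ℝ), ‖w‖ = 1 → 1 / 8 ≤ r → ‖pr x - r • w‖ ≤ δ →
      ‖e - w‖ ≤ 1 / (r / (2 * δ))) (hδ0 : 0 < δ) (hδ : δ ≤ 1 / 64)
    (hC : ∀ ρ : ℝ, 1 ≤ ρ → sg n {w : Sp n | ‖e - w‖ ≤ 1 / ρ} ≤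
      ENNReal.ofReal (C * (ρ ^ (n - 1))⁻¹))
    (hC' : ∫⁻ r in {r : ℝ | 0 < r ∧ Real.sqrt (z ^ 2 + r ^ 2) ≤ 4 * r}, gk lam t z r 2 ≤
      ENNReal.ofReal (C' / lam)) :
    ∫⁻ y : EE n, Fz lam t δ x (jo y z) ≤
      ENNReal.ofReal (C * (2 * δ) ^ (n - 1)) *
        (ENNReal.ofReal (9 * ((1 + |z|) ^ 2)⁻¹) * ENNReal.ofReal (C' / lam)) := by
  have hjm : Measurable fun y : EE n => jo y z :=
    (continuous_jo.comp (by fun_prop : Continuous fun y : EE n => (y, z))).measurable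
  have hFm : Measurable fun y : EE n => Fz lam t δ x (jo y z) := (Fz_meas lam t δ x).comp hjm
  have hm : Measurable fun q : Sp n × Ioi (0 : ℝ) =>
      Fz lam t δ x (jo ((q.2 : ℝ) • (q.1 : EE n)) z) := hFm.comp (mp_polar n hn).measurable
  have hRm : Measurable ((RS z).indicator fun r => gk lam t z r 4) :=
    (gk_meas lam t z 4).indicator (RS_meas z)
  have hb : ∀ r : Ioi (0 : ℝ), ∫⁻ w : Sp n, Fz lam t δ x (jo ((r : ℝ) • (w : EE n)) z) ∂(sg n) ≤
      (fun r : ℝ => (RS z).indicator (fun r => gk lam t z r 4) r *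
        ENNReal.ofReal (C * ((r / (2 * δ)) ^ (n - 1))⁻¹)) r := by
    intro r
    exact Fz_sph C lam t δ x z e he hδ0 hδ hC r r.2
  rw [← (mp_polar n hn).lintegral_comp hFm, lintegral_prod_symm _ hm.aemeasurable]
  refine (lintegral_mono hb).trans ?_
  have hGm : Measurable fun r : ℝ => (RS z).indicator (fun r => gk lam t z r 4) r *
      ENNReal.ofReal (C * ((r / (2 * δ)) ^ (n - 1))⁻¹) := by
    have h : Measurable fun r : ℝ => ENNReal.ofReal (C * ((r / (2 * δ)) ^ (n - 1))⁻¹) := by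
      fun_prop
    exact hRm.mul h
  rw [cv2_nu_lint n _ hGm]
  have h1 : ∀ r ∈ Ioi (0 : ℝ), ENNReal.ofReal (r ^ (n - 1)) *
      ((RS z).indicator (fun r => gk lam t z r 4) r *
        ENNReal.ofReal (C * ((r / (2 * δ)) ^ (n - 1))⁻¹)) =
      ENNReal.ofReal (C * (2 * δ) ^ (n - 1)) * (RS z).indicator (fun r => gk lam t z r 4) r := by
    intro r hr
    have hr0 : 0 < r := hr
    have h2 : ENNReal.ofReal (r ^ (n - 1)) * ENNReal.ofReal (C * ((r / (2 * δ)) ^ (n - 1))⁻¹) =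
        ENNReal.ofReal (C * (2 * δ) ^ (n - 1)) := by
      rw [← ENNReal.ofReal_mul (by positivity)]
      congr 1
      rw [div_pow, inv_div]
      field_simp
    rw [← h2]
    ring
  rw [setLIntegral_congr_fun measurableSet_Ioi h1, lintegral_const_mul' _ _ ENNReal.ofReal_ne_top]
  gcongr
  have hset : MeasurableSet {r : ℝ | 0 < r ∧ Real.sqrt (z ^ 2 + r ^ 2) ≤ 4 * r} := by
    have h1 : Measurable fun r : ℝ => Real.sqrt (z ^ 2 + r ^ 2) := by fun_prop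
    have h2 : Measurable fun r : ℝ => 4 * r := by fun_prop
    exact (measurableSet_lt measurable_const measurable_id).inter (measurableSet_le h1 h2)
  calc ∫⁻ r in Ioi (0 : ℝ), (RS z).indicator (fun r => gk lam t z r 4) r
      ≤ ∫⁻ r : ℝ, {r : ℝ | 0 < r ∧ Real.sqrt (z ^ 2 + r ^ 2) ≤ 4 * r}.indicator
          (fun r => ENNReal.ofReal (9 * ((1 + |z|) ^ 2)⁻¹) * gk lam t z r 2) r := by
        refine (setLIntegral_le_lintegral _ _).trans (lintegral_mono fun r => ?_)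
        by_cases h5 : r ∈ RS z
        · have h6 : r ∈ {r : ℝ | 0 < r ∧ Real.sqrt (z ^ 2 + r ^ 2) ≤ 4 * r} :=
            ⟨by have := h5.2; linarith, h5.1⟩
          rw [indicator_of_mem h5, indicator_of_mem h6]
          exact gk_bd lam t z r hl ht
        · rw [indicator_of_notMem h5]
          exact bot_le
    _ = ENNReal.ofReal (9 * ((1 + |z|) ^ 2)⁻¹) *
          ∫⁻ r in {r : ℝ | 0 < r ∧ Real.sqrt (z ^ 2 + r ^ 2) ≤ 4 * r}, gk lam t z r 2 := by
        rw [lintegral_indicator hset, lintegral_const_mul' _ _ ENNReal.ofReal_ne_top]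
    _ ≤ _ := by gcongr

theorem pf_cv2 (hCSL : T_CSL) (hSBL : T_SBL) : T_CV2 := by
  intro n hn
  obtain ⟨C, hC0, hC⟩ := hSBL n (by omega)
  obtain ⟨C', hC'0, hC'⟩ := hCSL
  obtain ⟨I, hI0, hI⟩ := int_z
  refine ⟨C * 2 ^ (n - 1) * (I * C'), by positivity, ?_⟩
  intro lam t δ x hl ht hδ0 hδ
  have hl0 : 0 < lam := by linarith
  obtain ⟨e, he1, he⟩ := cap_dir (n := n) (by omega) δ hδ (pr x)
  have hz : ∀ z : ℝ, ∫⁻ y : EE n, Fz lam t δ x (jo y z) ≤
      ENNReal.ofReal (C * (2 * δ) ^ (n - 1)) *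
        (ENNReal.ofReal (9 * ((1 + |z|) ^ 2)⁻¹) * ENNReal.ofReal (C' / lam)) := by
    intro z
    exact Fz_int (by omega) C C' hC0.le lam t δ x z e hl ht.2 he hδ0 hδ
      (fun ρ hρ => (hC ρ e hρ he1).2.2) (hC' lam z t hl0)
  have hm : Measurable fun q : EE n × ℝ => Fz lam t δ x (jo q.1 q.2) :=
    (Fz_meas lam t δ x).comp continuous_jo.measurable
  rw [← lintegral_indicator (cv2_S_meas δ x)]
  show ∫⁻ w : EE (n + 1), Fz lam t δ x w ≤ _
  rw [← (mp_jo n).lintegral_comp (Fz_meas lam t δ x), lintegral_prod_symm _ hm.aemeasurable]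
  refine (lintegral_mono hz).trans ?_
  rw [lintegral_const_mul' _ _ ENNReal.ofReal_ne_top,
    lintegral_mul_const' _ _ ENNReal.ofReal_ne_top, hI, ← ENNReal.ofReal_mul hI0,
    ← ENNReal.ofReal_mul (by positivity)]
  apply ENNReal.ofReal_le_ofReal
  apply le_of_eq
  rw [mul_pow]
  field_simp

end Pool.Agent.H66.BR
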